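import Mathlib

set_option autoImplicit false

namespace Pool.Agent.H34.Nag.Brouwer
open Metric Set MeasureTheory Polynomial

variable {E : Type*} [NormedAddCommGroup E] [InnerProductSpace ℝ E] [FiniteDimensional ℝ E]

theorem det_poly (A : E →L[ℝ] E) : ∃ p : ℝ[X], p.natDegree ≤ Module.finrank ℝ E ∧
    ∀ t : ℝ, p.eval t = (ContinuousLinearMap.id ℝ E + t • A).det := by
  classical
  let b := Module.finBasis ℝ E
  let M := LinearMap.toMatrix b b (A : E →ₗ[ℝ] E)
  refine ⟨Matrix.det ((X : ℝ[X]) • M.map C + (1 : Matrix _ _ ℝ).map C), ?_, fun t => ?_⟩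
  · simpa using natDegree_det_X_add_C_le M 1
  · rw [ContinuousLinearMap.det, ← LinearMap.det_toMatrix b, ← coe_evalRingHom, RingHom.map_det]
    congr 1
    ext i j
    simp [M, Matrix.one_apply, add_comm, LinearMap.toMatrix_apply]
    split_ifs with h
    · subst h; simp [mul_comm]
    · simp [Ne.symm h, mul_comm]

theorem interp (n : ℕ) (δ : ℝ) (hδ : 0 < δ) : ∃ (v w : Fin (n + 1) → ℝ),
    (∀ i, 0 ≤ v i ∧ v i < δ) ∧ ∑ i, w i = 1 ∧
    ∀ p : ℝ[X], p.natDegree ≤ n → p.eval 1 = ∑ i, w i * p.eval (v i) := by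
  classical
  let v : Fin (n + 1) → ℝ := fun i => δ * i.val / (n + 1)
  have hv : Set.InjOn v (Finset.univ : Finset (Fin (n + 1))) := by
    intro i _ j _ h
    have : (i.val : ℝ) = j.val := by
      simp only [v] at h
      field_simp at h
      exact h
    exact Fin.ext (by exact_mod_cast this)
  have key : ∀ p : ℝ[X], p.natDegree ≤ n →
      p.eval 1 = ∑ i, (Lagrange.basis Finset.univ v i).eval 1 * p.eval (v i) := by
    intro p hp
    have h := Lagrange.eq_interpolate (f := p) hv (by
      refine lt_of_le_of_lt degree_le_natDegree ?_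
      simp only [Finset.card_univ, Fintype.card_fin]
      exact_mod_cast Nat.lt_succ_of_le hp)
    conv_lhs => rw [h]
    rw [Lagrange.interpolate_apply, eval_finsetSum]
    refine Finset.sum_congr rfl (fun i _ => ?_)
    rw [eval_mul, eval_C, mul_comm]
  refine ⟨v, fun i => (Lagrange.basis Finset.univ v i).eval 1, fun i => ⟨by positivity, ?_⟩, ?_, key⟩
  · have : (i.val : ℝ) < n + 1 := by exact_mod_cast i.2
    simp only [v]
    rw [div_lt_iff₀ (by positivity)]
    nlinarith
  · simpa using (key 1 (by simp)).symm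

theorem no_smooth_retraction (G : E → E) (hG : ContDiff ℝ 1 G) (h1 : ∀ x, ‖G x‖ = 1)
    (h2 : ∀ x, ‖x‖ = 1 → G x = x) : False := by
  borelize E
  let μ : Measure E := Measure.addHaar
  let h : E → E := fun x => G x - x
  have hh : ContDiff ℝ 1 h := hG.sub contDiff_id
  have hd : ∀ x, HasFDerivAt h (fderiv ℝ h x) x := fun x =>
    (hh.differentiable (by norm_num) x).hasFDerivAt
  have hc : Continuous (fderiv ℝ h) := hh.continuous_fderiv (by norm_num)
  obtain ⟨M, hM⟩ := (isCompact_closedBall (0 : E) 1).exists_bound_of_continuousOn hc.continuousOn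
  have hM0 : 0 ≤ M := (norm_nonneg _).trans (hM 0 (by simp))
  have hlip : ∀ x ∈ closedBall (0 : E) 1, ∀ y ∈ closedBall (0 : E) 1, ‖h x - h y‖ ≤ M * ‖x - y‖ :=
    fun x hx y hy => (convex_closedBall (0 : E) 1).norm_image_sub_le_of_norm_fderiv_le
      (fun z _ => (hd z).differentiableAt) hM hy hx
  obtain ⟨η, hη, hdet⟩ : ∃ η > 0, ∀ B : E →L[ℝ] E, ‖B‖ < η →
      0 < (ContinuousLinearMap.id ℝ E + B).det := by
    have h3 : ContinuousAt (fun f : E →L[ℝ] E => f.det) (ContinuousLinearMap.id ℝ E) :=
      ContinuousLinearMap.continuous_det.continuousAt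
    have h4 : (0 : ℝ) < (ContinuousLinearMap.id ℝ E).det := by
      simp [ContinuousLinearMap.det]
    obtain ⟨η, hη, h5⟩ := Metric.eventually_nhds_iff.1 (h3.eventually (lt_mem_nhds h4))
    exact ⟨η, hη, fun B hB => h5 (by simpa [dist_eq_norm] using hB)⟩
  set δ := min 1 η / (M + 1) with hδ
  have hδ0 : 0 < δ := by positivity
  have main : ∀ t, 0 ≤ t → t < δ →
      ∫ x in ball (0 : E) 1, (ContinuousLinearMap.id ℝ E + t • fderiv ℝ h x).det ∂μ =
        ∫ _ in ball (0 : E) 1, (1 : ℝ) ∂μ := by
    intro t ht0 ht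
    have htM : t * (M + 1) < min 1 η := by rwa [hδ, lt_div_iff₀ (by positivity)] at ht
    have ht1 : t * M < 1 := by nlinarith [min_le_left 1 η]
    have ht2 : t * M < η := by nlinarith [min_le_right 1 η]
    have ht3 : t < 1 := by nlinarith [min_le_left 1 η]
    let g : E → E := fun x => x + t • h x
    have hgc : Continuous g := continuous_id.add (hh.continuous.const_smul t)
    have happ : ApproximatesLinearOn g (ContinuousLinearMap.id ℝ E) (closedBall 0 1)
        ⟨t * M, by positivity⟩ := by
      intro x hx y hy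
      have : g x - g y - (ContinuousLinearMap.id ℝ E) (x - y) = t • (h x - h y) := by
        simp only [g, ContinuousLinearMap.id_apply, smul_sub]; abel
      rw [this, norm_smul, Real.norm_of_nonneg ht0]
      calc _ ≤ t * (M * ‖x - y‖) := mul_le_mul_of_nonneg_left (hlip x hx y hy) ht0
        _ = _ := (mul_assoc _ _ _).symm
    have hinj : InjOn g (ball 0 1) := by
      intro x hx y hy hxy
      have := happ x (ball_subset_closedBall hx) y (ball_subset_closedBall hy)
      rw [hxy, sub_self, zero_sub, norm_neg] at this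
      change ‖x - y‖ ≤ t * M * ‖x - y‖ at this
      by_contra hne
      have h5 : 0 < ‖x - y‖ := norm_pos_iff.2 (sub_ne_zero.2 hne)
      nlinarith
    have hmaps : g '' ball 0 1 ⊆ ball 0 1 := by
      rintro _ ⟨x, hx, rfl⟩
      rw [mem_ball_zero_iff] at hx ⊢
      have : g x = (1 - t) • x + t • G x := by
        simp only [g, h, smul_sub, sub_smul, one_smul]; abel
      rw [this]
      refine (norm_add_le _ _).trans_lt ?_
      rw [norm_smul, norm_smul, h1, Real.norm_of_nonneg ht0, Real.norm_of_nonneg (by linarith)]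
      nlinarith
    have hopen : IsOpen (g '' ball 0 1) := (happ.mono_set ball_subset_closedBall).open_image
      ⟨fun y => y, 1, fun y => by simp, fun y => rfl⟩ isOpen_ball (Or.inr (by
        simp only [inv_one]; exact_mod_cast ht1))
    have hsurj : ball (0 : E) 1 ⊆ g '' ball 0 1 := by
      refine IsPreconnected.subset_left_of_subset_union hopen
        ((isCompact_closedBall (0 : E) 1).image hgc).isClosed.isOpen_compl
        (disjoint_compl_right.mono_left (image_mono ball_subset_closedBall)) ?_
        ⟨g 0, hmaps ⟨0, by simp, rfl⟩, 0, by simp, rfl⟩ (convex_ball 0 1).isPreconnected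
      intro y hy
      by_cases h5 : y ∈ g '' closedBall 0 1
      · obtain ⟨x, hx, rfl⟩ := h5
        refine Or.inl ⟨x, ?_, rfl⟩
        rw [mem_closedBall_zero_iff] at hx
        rcases hx.lt_or_eq with h6 | h6
        · exact mem_ball_zero_iff.2 h6
        · simpa [g, h, h2 x h6] using hy
      · exact Or.inr h5
    have himg : g '' ball 0 1 = ball 0 1 := hmaps.antisymm hsurj
    have hcv := integral_image_eq_integral_abs_det_fderiv_smul μ (s := ball (0 : E) 1) (f := g)
      (f' := fun x => ContinuousLinearMap.id ℝ E + t • fderiv ℝ h x) measurableSet_ball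
      (fun x _ => ((hasFDerivAt_id x).add ((hd x).const_smul t)).hasFDerivWithinAt) hinj
      (fun _ => (1 : ℝ))
    rw [himg] at hcv
    rw [hcv]
    refine setIntegral_congr_fun measurableSet_ball (fun x hx => ?_)
    have : ‖t • fderiv ℝ h x‖ < η := by
      rw [norm_smul, Real.norm_of_nonneg ht0]
      exact (mul_le_mul_of_nonneg_left (hM x (ball_subset_closedBall hx)) ht0).trans_lt ht2
    simp [abs_of_pos (hdet _ this)]
  obtain ⟨v, w, hv, hw, hp⟩ := interp (Module.finrank ℝ E) δ hδ0
  have zero : ∀ x, ∑ i, w i * (ContinuousLinearMap.id ℝ E + v i • fderiv ℝ h x).det = 0 := by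
    intro x
    obtain ⟨p, hp1, hp2⟩ := det_poly (fderiv ℝ h x)
    simp only [← hp2]
    rw [← hp p hp1, hp2, one_smul]
    by_contra hne
    have hGd : HasFDerivAt G (ContinuousLinearMap.id ℝ E + fderiv ℝ h x) x := by
      have := (hasFDerivAt_id x).add (hd x)
      convert this using 1
      ext y; simp [h]
    have h5 := hGd.norm_sq
    simp only [h1] at h5
    have h6 := h5.unique (hasFDerivAt_const _ _)
    have h7 : Function.Surjective (ContinuousLinearMap.id ℝ E + fderiv ℝ h x) :=
      (LinearMap.equivOfDetNeZero _ hne).surjective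
    obtain ⟨y, hy⟩ := h7 (G x)
    have h8 := congrArg (fun L => L y) h6
    simp only [smul_apply, ContinuousLinearMap.comp_apply, hy, innerSL_apply_apply,
      real_inner_self_eq_norm_sq, h1] at h8
    simp at h8
  have hint : ∀ t : ℝ, IntegrableOn (fun x => (ContinuousLinearMap.id ℝ E + t • fderiv ℝ h x).det)
      (ball 0 1) μ := fun t =>
    ((ContinuousLinearMap.continuous_det.comp (continuous_const.add (hc.const_smul t))).continuousOn.integrableOn_compact
      (isCompact_closedBall 0 1)).mono_set ball_subset_closedBall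
  have h9 : ∫ x in ball (0 : E) 1, ∑ i, w i * (ContinuousLinearMap.id ℝ E + v i • fderiv ℝ h x).det ∂μ
      = ∫ _ in ball (0 : E) 1, (1 : ℝ) ∂μ := by
    rw [integral_finsetSum _ (fun i _ => (hint (v i)).const_mul _)]
    simp only [integral_const_mul, fun i => main (v i) (hv i).1 (hv i).2]
    rw [← Finset.sum_mul, hw, one_mul]
  simp only [zero, integral_zero, integral_const, smul_eq_mul, mul_one] at h9
  have h10 : 0 < μ (ball (0 : E) 1) := measure_ball_pos μ 0 one_pos
  have h11 : μ (ball (0 : E) 1) < ⊤ := measure_ball_lt_top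
  have h12 := ENNReal.toReal_pos h10.ne' h11.ne
  simp only [Measure.real, Measure.restrict_apply_univ] at h9
  linarith

/-- A continuous map that is the identity outside the unit ball has a zero. -/
theorem exists_zero (F : E → E) (hF : Continuous F) (h : ∀ x, 1 ≤ ‖x‖ → F x = x) : ∃ x, F x = 0 := by
  by_contra hne
  push Not at hne
  obtain ⟨g, hg, h1, h2⟩ := (hF.sub continuous_id).exists_contDiff_approx 1 hF.norm
    (fun x => norm_pos_iff.2 (hne x))
  have h3 : ∀ x, x + g x ≠ 0 := by
    intro x hx
    have := h1 x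
    rw [dist_eq_norm] at this
    have h4 : g x - (F - id : E → E) x = - F x := by
      rw [Pi.sub_apply, id, eq_neg_of_add_eq_zero_right hx]; abel
    rw [h4, norm_neg] at this
    exact lt_irrefl _ this
  have hc : ContDiff ℝ 1 (fun x => x + g x) := contDiff_id.add (by exact_mod_cast hg)
  refine no_smooth_retraction (fun x => ‖x + g x‖⁻¹ • (x + g x))
    (((hc.norm ℝ h3).inv (fun x => norm_ne_zero_iff.2 (h3 x))).smul hc)
    (fun x => norm_smul_inv_norm (h3 x)) (fun x hx => ?_)
  have : g x = 0 := by
    by_contra h5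
    exact h2 h5 (by simp [h x hx.ge])
  simp [this, hx]

/-- Every bounded continuous self-map of a Euclidean space has a fixed point. -/
theorem fixed_of_bounded (T : E → E) (hT : Continuous T) (R : ℝ) (hR : ∀ x, ‖T x‖ ≤ R) :
    ∃ x, T x = x := by
  have hR0 : 0 ≤ R := (norm_nonneg _).trans (hR 0)
  set S := 2 * R + 1 with hS
  have hS0 : 0 < S := by positivity
  let χ : E → ℝ := fun x => max 0 (min 1 (2 - 2 * ‖x‖))
  have hχ : Continuous χ := by fun_prop
  obtain ⟨x, hx⟩ := exists_zero (fun x => x - (χ x * S⁻¹) • T (S • x)) (by fun_prop) (fun x hx => by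
    have : χ x = 0 := max_eq_left (min_le_of_right_le (by linarith))
    simp [this])
  have h1 : x = (χ x * S⁻¹) • T (S • x) := sub_eq_zero.1 hx
  have h2 : 0 ≤ χ x := le_max_left _ _
  have h3 : χ x ≤ 1 := max_le zero_le_one (min_le_left _ _)
  have h4 : ‖x‖ ≤ 1 / 2 := by
    rw [h1, norm_smul, Real.norm_of_nonneg (by positivity)]
    calc _ ≤ 1 * S⁻¹ * R := by gcongr; exact hR _
      _ ≤ 1 / 2 := by rw [one_mul, inv_mul_le_iff₀ hS0]; linarith
  have h5 : χ x = 1 := by
    simp only [χ]
    rw [min_eq_left (by linarith), max_eq_right zero_le_one]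
  refine ⟨S • x, ?_⟩
  rw [h5, one_mul] at h1
  conv_rhs => rw [h1]
  rw [smul_smul, mul_inv_cancel₀ hS0.ne', one_smul]

/-- Brouwer's fixed point theorem for nonempty compact convex sets. -/
theorem brouwer {K : Set E} (hK : IsCompact K) (hc : Convex ℝ K) (hne : K.Nonempty) (f : E → E)
    (hf : ContinuousOn f K) (hm : MapsTo f K K) : ∃ x ∈ K, f x = x := by
  have hex := exists_norm_eq_iInf_of_complete_convex hne hK.isComplete hc
  choose P hP hP' using hex
  have hlip : ∀ x y, ‖P x - P y‖ ≤ ‖x - y‖ := by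
    intro x y
    have h1 := (norm_eq_iInf_iff_real_inner_le_zero hc (hP x)).1 (hP' x) (P y) (hP y)
    have h2 := (norm_eq_iInf_iff_real_inner_le_zero hc (hP y)).1 (hP' y) (P x) (hP x)
    have h3 : ‖P x - P y‖ ^ 2 ≤ inner ℝ (x - y) (P x - P y) := by
      rw [← real_inner_self_eq_norm_sq]
      have e1 : P y - P x = -(P x - P y) := by abel
      have e2 : x - y = (x - P x) - (y - P y) + (P x - P y) := by abel
      rw [e1, inner_neg_right] at h1
      conv_rhs => rw [e2, inner_add_left, inner_sub_left]
      linarith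
    have h4 := real_inner_le_norm (x - y) (P x - P y)
    by_contra hlt
    push Not at hlt
    nlinarith [norm_nonneg (x - y)]
  have hPc : Continuous P := (LipschitzWith.of_dist_le_mul (K := 1) (fun x y => by
    simpa [dist_eq_norm] using hlip x y)).continuous
  obtain ⟨R, hR⟩ := hK.isBounded.exists_norm_le
  obtain ⟨x, hx⟩ := fixed_of_bounded (fun x => f (P x)) (hf.comp_continuous hPc hP) R
    (fun x => hR _ (hm (hP x)))
  have hxK : x ∈ K := hx ▸ hm (hP x)
  have hPx : P x = x := by
    have h1 := (norm_eq_iInf_iff_real_inner_le_zero hc (hP x)).1 (hP' x) x hxK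
    rw [real_inner_self_nonpos] at h1
    exact (sub_eq_zero.1 h1).symm
  exact ⟨x, hxK, by simpa [hPx] using hx⟩

end Pool.Agent.H34.Nag.Brouwer
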