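import Mathlib
import Pool.Agent.H34.Nag.Brouwer

set_option autoImplicit false

namespace Pool.Agent.H34.Nag.LebN

open Finset

/-- Poincare-Miranda on a cube. -/
theorem miranda (n : ℕ) (N : ℝ) (hN : 0 < N) (h : (Fin n → ℝ) → Fin n → ℝ) (hc : Continuous h)
    (h0 : ∀ x i, x i = 0 → h x i ≤ 0) (h1 : ∀ x i, x i = N → 0 ≤ h x i) :
    ∃ x : Fin n → ℝ, (∀ i, 0 ≤ x i ∧ x i ≤ N) ∧ h x = 0 := by
  let T : EuclideanSpace ℝ (Fin n) → EuclideanSpace ℝ (Fin n) := fun x =>
    WithLp.toLp 2 fun i => max 0 (min N (x i - h x.ofLp i))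
  have hT : Continuous T := by
    refine (PiLp.continuous_toLp 2 _).comp (continuous_pi fun i => ?_)
    have : Continuous fun x : EuclideanSpace ℝ (Fin n) => h x.ofLp i :=
      (continuous_apply i).comp (hc.comp (PiLp.continuous_ofLp 2 _))
    fun_prop
  have hb : ∀ x i, 0 ≤ T x i ∧ T x i ≤ N := fun x i =>
    ⟨le_max_left _ _, max_le hN.le (min_le_left _ _)⟩
  obtain ⟨x, hx⟩ := Pool.Agent.H34.Nag.Brouwer.fixed_of_bounded T hT (√(∑ _i : Fin n, N ^ 2))
    fun x => by
      rw [EuclideanSpace.norm_eq]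
      refine Real.sqrt_le_sqrt (sum_le_sum fun i _ => ?_)
      rw [Real.norm_eq_abs, sq_abs]
      exact pow_le_pow_left₀ (hb x i).1 (hb x i).2 2
  refine ⟨x.ofLp, fun i => hx ▸ hb x i, funext fun i => ?_⟩
  have e : max 0 (min N (x i - h x.ofLp i)) = x i := congrArg (fun y => y i) hx
  have a0 := h0 x.ofLp i
  have a1 := h1 x.ofLp i
  simp only [Pi.zero_apply]
  rcases le_total N (x i - h x.ofLp i) with h2 | h2
  · rw [min_eq_left h2, max_eq_right hN.le] at e
    have := a1 e.symm
    linarith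
  · rw [min_eq_right h2] at e
    rcases le_total 0 (x i - h x.ofLp i) with h3 | h3
    · rw [max_eq_right h3] at e; linarith
    · rw [max_eq_left h3] at e
      have := a0 e.symm
      linarith

theorem exists_functional (n : ℕ) (L : Set (Fin (n + 1) → ℚ)) (hL : L.encard ≤ n) :
    ∃ c : Fin (n + 1) → ℚ, c ≠ 0 ∧ ∀ v ∈ L, ∑ j, c j * v j = 0 := by
  classical
  have hf : L.Finite := Set.finite_of_encard_le_coe hL
  have hlt : Submodule.span ℚ L < ⊤ := by
    apply Submodule.lt_top_of_finrank_lt_finrank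
    have h1 := finrank_span_finset_le_card (R := ℚ) hf.toFinset
    have h2 : hf.toFinset.card ≤ n := by
      have := hf.encard_eq_coe_toFinset_card
      rw [this] at hL
      exact_mod_cast hL
    rw [Set.finrank, Set.Finite.coe_toFinset] at h1
    simp only [Module.finrank_fintype_fun_eq_card, Fintype.card_fin]
    omega
  obtain ⟨φ, h0, hφ⟩ := Submodule.exists_le_ker_of_lt_top _ hlt
  have key : ∀ v : Fin (n + 1) → ℚ, φ v = ∑ j, φ (Pi.single j 1) * v j := by
    intro v
    conv_lhs => rw [pi_eq_sum_univ' v, map_sum]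
    refine sum_congr rfl fun j _ => ?_
    rw [map_smul, smul_eq_mul, mul_comm]
  refine ⟨fun j => φ (Pi.single j 1), fun hc => h0 ?_, fun v hv => ?_⟩
  · ext j
    simpa using congrFun hc j
  · rw [← key]
    exact hφ (Submodule.subset_span hv)

/-- Lebesgue covering theorem for the grid, label form. -/
theorem lebesgue {α : Type} (n N : ℕ) (hN : 0 < N) (U : (Fin n → ℕ) → α)
    (hb : ∀ v w, U v = U w → ∀ i, w i = 0 → v i < N)
    (hm : ∀ v : Fin n → ℕ,
      {a | ∃ w, (∀ i, v i ≤ w i ∧ w i ≤ v i + 1) ∧ U w = a}.encard ≤ n) : False := by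
  classical
  obtain ⟨t, ht, t0, t1⟩ : ∃ t : ℝ, ¬ IsAlgebraic ℚ t ∧ 0 < t ∧ t < 1 := by
    obtain ⟨t, h1, h2⟩ := ((Algebraic.countable ℚ ℝ).dense_compl ℝ).exists_mem_open
      (isOpen_Ioo (a := (0 : ℝ)) (b := 1)) ⟨1 / 2, by norm_num, by norm_num⟩
    exact ⟨t, h1, h2.1, h2.2⟩
  let f : α → Fin n → ℚ := fun a i => if ∃ w, U w = a ∧ w i = 0 then 0 else 1
  let Z : Finset (Fin n → ℕ) := Fintype.piFinset fun _ => range (N + 1)
  let wt : (Fin n → ℕ) → (Fin n → ℝ) → ℝ := fun z x => ∏ i, max 0 (1 - |x i - z i|)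
  have wt0 : ∀ z x, 0 ≤ wt z x := fun z x => prod_nonneg fun i _ => le_max_left _ _
  have wt1 : ∀ z x, wt z x ≠ 0 → ∀ i, |x i - z i| < 1 := by
    intro z x h i
    have := prod_ne_zero_iff.1 h i (mem_univ i)
    by_contra hc
    exact this (max_eq_left (by linarith))
  have tp : ∀ k : ℕ, 0 < t ^ (k + 1) ∧ t ^ (k + 1) < 1 := fun k =>
    ⟨by positivity, pow_lt_one₀ t0.le t1 (by omega)⟩
  obtain ⟨x, hx, hz⟩ := miranda n N (by exact_mod_cast hN)
    (fun x i => ∑ z ∈ Z, wt z x * ((f (U z) i : ℝ) - t ^ (i.1 + 1)))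
    (by simp only [wt]; fun_prop)
    (fun x i hi => sum_nonpos fun z _ => by
      by_cases h : wt z x = 0
      · simp [h]
      · have h1 := wt1 z x h i
        rw [hi, zero_sub, abs_neg, Nat.abs_cast] at h1
        have h2 : z i = 0 := by
          have : z i < 1 := by exact_mod_cast h1
          omega
        have h3 : f (U z) i = 0 := if_pos ⟨z, rfl, h2⟩
        rw [h3]
        exact mul_nonpos_of_nonneg_of_nonpos (wt0 z x) (by have := tp i.1; push_cast; linarith))
    (fun x i hi => sum_nonneg fun z _ => by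
      by_cases h : wt z x = 0
      · simp [h]
      · have h1 := (abs_lt.1 (wt1 z x h i)).2
        rw [hi] at h1
        have h2 : N ≤ z i := by
          have : (N : ℝ) < z i + 1 := by linarith
          have : N < z i + 1 := by exact_mod_cast this
          omega
        have h3 : f (U z) i = 1 := if_neg (by
          rintro ⟨w, hw, hw0⟩
          have := hb z w hw.symm i hw0
          omega)
        rw [h3]
        exact mul_nonneg (wt0 z x) (by have := tp i.1; push_cast; linarith))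
  let v : Fin n → ℕ := fun i => ⌊x i⌋₊
  have hv : ∀ i, (v i : ℝ) ≤ x i ∧ x i < v i + 1 := fun i =>
    ⟨Nat.floor_le (hx i).1, Nat.lt_floor_add_one _⟩
  let g : α → Fin (n + 1) → ℚ := fun a => Fin.cons 1 (f a)
  obtain ⟨c, hc0, hc⟩ := exists_functional n
    (g '' {a | ∃ w, (∀ i, v i ≤ w i ∧ w i ≤ v i + 1) ∧ U w = a})
    ((Set.encard_image_le _ _).trans (hm v))
  have hW : 0 < ∑ z ∈ Z, wt z x := by
    refine sum_pos' (fun z _ => wt0 z x) ⟨v, ?_, ?_⟩
    · refine Fintype.mem_piFinset.2 fun i => mem_range.2 ?_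
      have : (v i : ℝ) ≤ N := (hv i).1.trans (hx i).2
      have : v i ≤ N := by exact_mod_cast this
      omega
    · refine prod_pos fun i _ => lt_max_of_lt_right ?_
      have := hv i
      rw [abs_of_nonneg (by linarith)]
      linarith
  have e1 : ∀ z ∈ Z, wt z x * ∑ j, (c j : ℝ) * g (U z) j = 0 := by
    intro z _
    by_cases h : wt z x = 0
    · simp [h]
    · have := hc (g (U z)) ⟨U z, ⟨z, fun i => ?_, rfl⟩, rfl⟩
      · have h2 : ∑ j, (c j : ℝ) * g (U z) j = 0 := by exact_mod_cast this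
        rw [h2, mul_zero]
      · have h1 := abs_lt.1 (wt1 z x h i)
        have h2 := hv i
        have a1 : (v i : ℝ) < z i + 1 := by linarith
        have a2 : (z i : ℝ) < v i + 2 := by linarith
        have b1 : v i < z i + 1 := by exact_mod_cast a1
        have b2 : z i < v i + 2 := by exact_mod_cast a2
        omega
  have e2 : ∀ j : Fin (n + 1), ∑ z ∈ Z, wt z x * g (U z) j = (∑ z ∈ Z, wt z x) * t ^ j.1 := by
    intro j
    refine Fin.cases ?_ (fun i => ?_) j
    · simp [g]
    · have := congrFun hz i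
      simp only [Pi.zero_apply, mul_sub, sum_sub_distrib, sub_eq_zero] at this
      simp only [g, Fin.cons_succ, Fin.val_succ, this, sum_mul]
  have e3 : (∑ z ∈ Z, wt z x) * ∑ j, (c j : ℝ) * t ^ j.1 = 0 := by
    rw [← sum_eq_zero e1, mul_sum]
    simp only [mul_sum]
    rw [sum_comm]
    refine sum_congr rfl fun j _ => ?_
    rw [mul_left_comm, ← e2, mul_sum]
    exact sum_congr rfl fun z _ => by ring
  have e4 : ∑ j, (c j : ℝ) * t ^ j.1 = 0 := (mul_eq_zero.1 e3).resolve_left hW.ne'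
  refine ht ⟨Polynomial.ofFn (n + 1) c, fun h => hc0 ?_, ?_⟩
  · exact Polynomial.injective_ofFn (n + 1) (by rw [h, map_zero])
  · rw [Polynomial.ofFn_eq_sum_monomial, map_sum, ← e4]
    exact sum_congr rfl fun j _ => by simp

/-- Lebesgue covering theorem for a cube of the grid. -/
theorem lebesgue_cube {α : Type} (n N : ℕ) (hN : 0 < N) (U : (Fin n → ℕ) → α)
    (hb : ∀ v w, (∀ i, v i ≤ N) → (∀ i, w i ≤ N) → U v = U w → ∀ i, v i < w i + N)
    (hm : ∀ v : Fin n → ℕ, (∀ i, v i ≤ N) →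
      {a | ∃ w, (∀ i, v i ≤ w i ∧ w i ≤ v i + 1) ∧ (∀ i, w i ≤ N) ∧ U w = a}.encard ≤ n) :
    False := by
  refine lebesgue n N hN (fun v => U fun i => min (v i) N) (fun v w h i hi => ?_) fun v => ?_
  · have := hb _ _ (fun i => min_le_right _ _) (fun i => min_le_right _ _) h i
    simp only [hi] at this
    omega
  · refine le_trans (Set.encard_le_encard ?_) (hm (fun i => min (v i) N) fun i => min_le_right _ _)
    rintro a ⟨w, hw, rfl⟩
    exact ⟨_, fun i => by have := hw i; omega, fun i => min_le_right _ _, rfl⟩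

end Pool.Agent.H34.Nag.LebN
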