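import Mathlib
import Pool.Agent.H34.Nag.LebN

set_option autoImplicit false

namespace Pool.Agent.H34.Nag

open Filter Topology

/-- `X` has Nagata dimension at most `d`. -/
def NagLE (X : Type) [MetricSpace X] (d : ℕ) : Prop :=
  ∃ c : ℝ, 0 < c ∧ ∀ s : ℝ, 0 < s → ∃ 𝒞 : Set (Set X), ⋃₀ 𝒞 = Set.univ ∧
    (∀ B ∈ 𝒞, Metric.ediam B ≤ ENNReal.ofReal (c * s)) ∧
    ∀ A : Set X, Metric.ediam A ≤ ENNReal.ofReal s →
      {B | B ∈ 𝒞 ∧ (A ∩ B).Nonempty}.encard ≤ (d : ℕ∞) + 1

/-- Nagata dimension: the least admissible `d`, and `⊤` if there is none. -/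
noncomputable def dimN (X : Type) [MetricSpace X] : ℕ∞ := ⨅ (d : ℕ) (_ : NagLE X d), (d : ℕ∞)

/-- Euclidean space. -/
abbrev En (n : ℕ) := EuclideanSpace ℝ (Fin n)

/-- Metric definition of quasiconformality: the distortion is bounded on the source. -/
def IsQC {n : ℕ} (f : OpenPartialHomeomorph (En n) (En n)) : Prop :=
  ∃ K : ℝ, ∀ x ∈ f.source, ∀ᶠ r in 𝓝[>] (0 : ℝ), ∀ y ∈ Metric.sphere x r,
    ∀ z ∈ Metric.sphere x r, dist (f y) (f x) ≤ K * dist (f z) (f x)

lemma int_step (N i a b : ℤ) (hN : 0 < N) (hi : 0 ≤ i) (hi' : i < N) (h : |a - b| ≤ 1)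
    (ha : a % N ≠ i) (hb : b % N ≠ i) : (a - i) / N = (b - i) / N := by
  have key : ∀ a : ℤ, (a + 1) % N ≠ i → (a - i) / N = (a + 1 - i) / N := by
    intro a h1
    have e1 := Int.emod_add_mul_ediv (a - i) N
    have e2 := Int.emod_nonneg (a - i) hN.ne'
    have e3 := Int.emod_lt_of_pos (a - i) hN
    rcases lt_or_eq_of_le (Int.add_one_le_of_lt e3) with h2 | h2
    · symm
      have := (Int.ediv_emod_unique (a := a + 1 - i) (r := (a - i) % N + 1) (q := (a - i) / N)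
        hN).2 ⟨by linarith, by linarith, h2⟩
      exact this.1
    · exfalso
      apply h1
      have := (Int.ediv_emod_unique (a := a + 1) (r := i) (q := (a - i) / N + 1)
        hN).2 ⟨by linarith, hi, hi'⟩
      exact this.2
  rcases abs_le.1 h with ⟨h1, h2⟩
  have : a = b ∨ a = b + 1 ∨ b = a + 1 := by omega
  rcases this with rfl | rfl | rfl
  · rfl
  · exact (key b ha).symm
  · exact key a hb

lemma nagLE_of {X : Type} [MetricSpace X] (d : ℕ) (φ : X → Fin d → ℝ)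
    (hφ : ∀ x y j, |φ x j - φ y j| ≤ dist x y) (C : ℝ) (hC : 0 < C)
    (g : ℝ → X → ℕ) (hg : ∀ s, 0 < s → ∀ x y, dist x y ≤ s → g s x = g s y)
    (hd : ∀ s, 0 < s → ∀ x y, g s x = g s y → (∀ j, |φ x j - φ y j| ≤ (d + 2) * s) →
      dist x y ≤ C * s) : NagLE X d := by
  classical
  refine ⟨C, hC, fun s hs => ?_⟩
  let ρ : X → Fin d → ℤ := fun x j => ⌊φ x j / s⌋
  have hex : ∀ x, ∃ i ∈ Finset.range (d + 1), ∀ j, ρ x j % ((d : ℤ) + 1) ≠ i := by
    intro x
    obtain ⟨i, h1, h2⟩ := Finset.exists_mem_notMem_of_card_lt_card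
      (s := Finset.univ.image fun j => (ρ x j % ((d : ℤ) + 1)).toNat)
      (t := Finset.range (d + 1)) (lt_of_le_of_lt Finset.card_image_le (by simp))
    refine ⟨i, h1, fun j hj => h2 (Finset.mem_image.2 ⟨j, Finset.mem_univ _, by simp [hj]⟩)⟩
  choose ι hι1 hι2 using hex
  let lab : X → ℕ × (Fin d → ℤ) × ℕ := fun x =>
    (ι x, fun j => (ρ x j - ι x) / ((d : ℤ) + 1), g s x)
  have hN : (0 : ℤ) < d + 1 := by positivity
  have h1 : ∀ x y, lab x = lab y → dist x y ≤ C * s := by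
    intro x y h
    simp only [lab, Prod.mk.injEq] at h
    obtain ⟨e1, e2, e3⟩ := h
    refine hd s hs x y e3 fun j => ?_
    have e4 := congrFun e2 j
    simp only [e1] at e4
    have a1 := Int.emod_add_mul_ediv (ρ x j - ι y) ((d : ℤ) + 1)
    have a2 := Int.emod_nonneg (ρ x j - ι y) hN.ne'
    have a3 := Int.emod_lt_of_pos (ρ x j - ι y) hN
    have b1 := Int.emod_add_mul_ediv (ρ y j - ι y) ((d : ℤ) + 1)
    have b2 := Int.emod_nonneg (ρ y j - ι y) hN.ne'
    have b3 := Int.emod_lt_of_pos (ρ y j - ι y) hN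
    rw [e4] at a1
    have c1 : ((ρ x j : ℝ) - ρ y j) ≤ d + 1 := by exact_mod_cast (by linarith : ρ x j - ρ y j ≤ d + 1)
    have c2 : ((ρ y j : ℝ) - ρ x j) ≤ d + 1 := by exact_mod_cast (by linarith : ρ y j - ρ x j ≤ d + 1)
    have f1 := Int.floor_le (φ x j / s)
    have f2 := Int.lt_floor_add_one (φ x j / s)
    have f3 := Int.floor_le (φ y j / s)
    have f4 := Int.lt_floor_add_one (φ y j / s)
    have : |φ x j / s - φ y j / s| ≤ d + 2 := by
      simp only [ρ] at c1 c2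
      rw [abs_le]; constructor <;> linarith
    rwa [← sub_div, abs_div, abs_of_pos hs, div_le_iff₀ hs] at this
  have h2 : ∀ x y, dist x y ≤ s → ι x = ι y → lab x = lab y := by
    intro x y h e
    simp only [lab, Prod.mk.injEq]
    refine ⟨e, funext fun j => ?_, hg s hs x y h⟩
    rw [e]
    have hlt := Finset.mem_range.1 (hι1 y)
    refine int_step _ _ _ _ hN (by positivity) (by exact_mod_cast hlt) ?_ (e ▸ hι2 x j) (hι2 y j)
    have : |φ x j / s - φ y j / s| ≤ 1 := by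
      rw [← sub_div, abs_div, abs_of_pos hs, div_le_one hs]; exact (hφ x y j).trans h
    have f1 := Int.floor_le (φ x j / s)
    have f2 := Int.lt_floor_add_one (φ x j / s)
    have f3 := Int.floor_le (φ y j / s)
    have f4 := Int.lt_floor_add_one (φ y j / s)
    rw [abs_le] at this
    have c1 : ((ρ x j : ℝ) - ρ y j) < 2 := by simp only [ρ]; linarith
    have c2 : ((ρ y j : ℝ) - ρ x j) < 2 := by simp only [ρ]; linarith
    have d1 : ρ x j - ρ y j < 2 := by exact_mod_cast c1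
    have d2 : ρ y j - ρ x j < 2 := by exact_mod_cast c2
    rw [abs_le]; omega
  refine ⟨Set.range fun x => {y | lab y = lab x}, ?_, ?_, fun A hA => ?_⟩
  · ext x; simp only [Set.mem_sUnion, Set.mem_range, Set.mem_univ, iff_true]
    exact ⟨_, ⟨x, rfl⟩, rfl⟩
  · rintro B ⟨x, rfl⟩
    refine Metric.ediam_le fun y hy z hz => ?_
    rw [edist_dist]
    exact ENNReal.ofReal_le_ofReal (h1 y z (hy.trans hz.symm))
  · have hA' : ∀ x ∈ A, ∀ y ∈ A, dist x y ≤ s := fun x hx y hy => by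
      have := (Metric.edist_le_ediam_of_mem hx hy).trans hA
      rwa [edist_dist, ENNReal.ofReal_le_ofReal_iff hs.le] at this
    let F : ℕ → Set X := fun i => {y | ∃ x ∈ A, ι x = i ∧ lab y = lab x}
    have hsub : {B | B ∈ (Set.range fun x => {y | lab y = lab x}) ∧ (A ∩ B).Nonempty} ⊆
        F '' (Finset.range (d + 1) : Set ℕ) := by
      rintro B ⟨⟨x, rfl⟩, a, ha, hax⟩
      refine ⟨ι a, by simpa using hι1 a, ?_⟩
      ext y
      simp only [F, Set.mem_ofPred_eq]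
      have hax' : lab a = lab x := hax
      constructor
      · rintro ⟨b, hb, e1, e2⟩
        rw [e2, h2 b a (hA' b hb a ha) e1, hax']
      · intro h; exact ⟨a, ha, rfl, h.trans hax'.symm⟩
    refine (Set.encard_le_encard hsub).trans ((Set.encard_image_le _ _).trans ?_)
    rw [Set.encard_coe_eq_coe_finsetCard]; simp

lemma dist_le_of {n : ℕ} (a b a' b' : En n) (K : ℝ) (hK : 0 ≤ K)
    (h : ∀ i, |a i - b i| ≤ K * |a' i - b' i|) : dist a b ≤ K * dist a' b' := by
  rw [EuclideanSpace.dist_eq, EuclideanSpace.dist_eq, ← Real.sqrt_sq hK,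
    ← Real.sqrt_mul (sq_nonneg K), Finset.mul_sum]
  refine Real.sqrt_le_sqrt (Finset.sum_le_sum fun i _ => ?_)
  rw [Real.dist_eq, Real.dist_eq, ← mul_pow]
  exact pow_le_pow_left₀ (abs_nonneg _) (h i) 2

lemma dist_le_card {n : ℕ} (a b : En n) (K : ℝ) (hK : 0 ≤ K)
    (h : ∀ i, |a i - b i| ≤ K) : dist a b ≤ (n + 1) * K := by
  rw [EuclideanSpace.dist_eq]
  refine Real.sqrt_le_iff.2 ⟨by positivity, ?_⟩
  calc ∑ i, dist (a i) (b i) ^ 2 ≤ ∑ _i : Fin n, K ^ 2 := Finset.sum_le_sum fun i _ => by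
        rw [Real.dist_eq]; exact pow_le_pow_left₀ (abs_nonneg _) (h i) 2
    _ = n * K ^ 2 := by simp
    _ ≤ _ := by
        have : (0 : ℝ) ≤ n := by positivity
        nlinarith [sq_nonneg K, mul_nonneg this (sq_nonneg K),
          mul_nonneg (mul_nonneg this this) (sq_nonneg K)]

lemma coord_le {n : ℕ} (a b : En n) (i : Fin n) : |a i - b i| ≤ dist a b := by
  rw [← Real.dist_eq]; exact PiLp.dist_apply_le a b i

lemma not_nagLE {n : ℕ} (S : Set (En n))
    (H : ∀ N : ℕ, ∃ (t : Fin n → ℝ) (G : (Fin n → ℕ) → S), ∀ v, (∀ i, v i ≤ N) →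
      ∀ i, |(G v : En n) i - (t i + v i)| ≤ 1) (k : ℕ) (hk : k < n) : ¬ NagLE S k := by
  rintro ⟨c, hc, h⟩
  obtain ⟨𝒞, h1, h2, h3⟩ := h ((n + 1) * 3) (by positivity)
  obtain ⟨N, hN⟩ := exists_nat_gt (c * ((n + 1) * 3) + 2)
  obtain ⟨t, G, hG⟩ := H N
  have hex : ∀ v, ∃ B ∈ 𝒞, G v ∈ B := fun v => by
    have : G v ∈ ⋃₀ 𝒞 := h1 ▸ Set.mem_univ _
    exact this
  choose U hU1 hU2 using hex
  have hpos : 0 < c * ((n + 1) * 3) := by positivity
  refine Pool.Agent.H34.Nag.LebN.lebesgue_cube n N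
    (by exact_mod_cast (by linarith : (0 : ℝ) < N)) U
    (fun v w hv hw e i => ?_) (fun v hv => ?_)
  · have := (Metric.edist_le_ediam_of_mem (hU2 v) (e ▸ hU2 w)).trans (h2 _ (hU1 v))
    rw [edist_dist, ENNReal.ofReal_le_ofReal_iff hpos.le, Subtype.dist_eq] at this
    have a := abs_le.1 ((coord_le _ _ i).trans this)
    have b := abs_le.1 (hG v hv i)
    have b' := abs_le.1 (hG w hw i)
    have : (v i : ℝ) < w i + N := by linarith
    exact_mod_cast this
  · have := h3 (G '' {w | (∀ i, v i ≤ w i ∧ w i ≤ v i + 1) ∧ ∀ i, w i ≤ N}) (by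
      refine Metric.ediam_le ?_
      rintro _ ⟨w, hw, rfl⟩ _ ⟨w', hw', rfl⟩
      rw [edist_dist, Subtype.dist_eq]
      refine ENNReal.ofReal_le_ofReal (dist_le_card _ _ 3 (by norm_num) fun i => ?_)
      have b := abs_le.1 (hG w hw.2 i)
      have b' := abs_le.1 (hG w' hw'.2 i)
      have c1 : (v i : ℝ) ≤ w i := by exact_mod_cast (hw.1 i).1
      have c2 : (w i : ℝ) ≤ v i + 1 := by exact_mod_cast (hw.1 i).2
      have c3 : (v i : ℝ) ≤ w' i := by exact_mod_cast (hw'.1 i).1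
      have c4 : (w' i : ℝ) ≤ v i + 1 := by exact_mod_cast (hw'.1 i).2
      rw [abs_le]; constructor <;> linarith)
    refine le_trans (Set.encard_le_encard ?_) (this.trans ?_)
    · rintro B ⟨w, hw, hw2, rfl⟩
      exact ⟨hU1 w, G w, ⟨w, ⟨hw, hw2⟩, rfl⟩, hU2 w⟩
    · exact_mod_cast hk

noncomputable def psi (γ t : ℝ) : ℝ := if t < 0 then t else γ * t

lemma psi_lip {γ : ℝ} (h0 : 0 < γ) (h2 : γ ≤ 2) (t u : ℝ) : |psi γ t - psi γ u| ≤ 2 * |t - u| := by
  unfold psi
  split_ifs with a b b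
  · nlinarith [abs_nonneg (t - u)]
  · push Not at b
    rw [abs_of_nonpos (by nlinarith), abs_of_nonpos (by linarith)]; nlinarith
  · push Not at a
    rw [abs_of_nonneg (by nlinarith), abs_of_nonneg (by linarith)]; nlinarith
  · rw [← mul_sub, abs_mul, abs_of_pos h0]; nlinarith [abs_nonneg (t - u)]

lemma psi_neg {γ : ℝ} (h0 : 0 < γ) (t : ℝ) : psi γ t < 0 ↔ t < 0 := by
  unfold psi
  split_ifs with a
  · simp [a]
  · simp only [a, iff_false, not_lt]; push Not at a; positivity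

lemma psi_inv {γ : ℝ} (h0 : 0 < γ) (t : ℝ) : psi γ⁻¹ (psi γ t) = t := by
  by_cases a : t < 0
  · simp [psi, a]
  · have := (psi_neg h0 t).not.2 a
    rw [psi, if_neg this, psi, if_neg a]; field_simp

variable {m : ℕ}

noncomputable def Fm (γ : ℝ) (y : En (m + 2)) : En (m + 2) :=
  WithLp.toLp 2 fun i => if i = 0 then psi γ (y 0) else y i

lemma Fm0 (γ : ℝ) (y : En (m + 2)) : Fm γ y 0 = psi γ (y 0) := by simp [Fm]
lemma Fm_ne (γ : ℝ) (y : En (m + 2)) {i : Fin (m + 2)} (hi : i ≠ 0) : Fm γ y i = y i := by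
  simp [Fm, hi]
lemma Fm1 (γ : ℝ) (y : En (m + 2)) : Fm γ y 1 = y 1 := Fm_ne γ y (by simp)

lemma Fm_lip {γ : ℝ} (h0 : 0 < γ) (h2 : γ ≤ 2) (y z : En (m + 2)) :
    dist (Fm γ y) (Fm γ z) ≤ 2 * dist y z := by
  refine dist_le_of _ _ _ _ 2 (by norm_num) fun i => ?_
  by_cases hi : i = 0
  · subst hi; rw [Fm0, Fm0]; exact psi_lip h0 h2 _ _
  · rw [Fm_ne _ _ hi, Fm_ne _ _ hi]; nlinarith [abs_nonneg (y i - z i)]

lemma Fm_inv {γ : ℝ} (h0 : 0 < γ) (y : En (m + 2)) : Fm γ⁻¹ (Fm γ y) = y := by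
  ext i
  by_cases hi : i = 0
  · subst hi; rw [Fm0, Fm0, psi_inv h0]
  · rw [Fm_ne _ _ hi, Fm_ne _ _ hi]

lemma Fm_neg (γ : ℝ) (y : En (m + 2)) (h : y 0 < 0) : Fm γ y = y := by
  ext i
  by_cases hi : i = 0
  · subst hi; rw [Fm0, psi, if_pos h]
  · rw [Fm_ne _ _ hi]

lemma Fm_cont {γ : ℝ} (h0 : 0 < γ) (h2 : γ ≤ 2) : Continuous (Fm (m := m) γ) :=
  (LipschitzWith.of_dist_le_mul (K := 2) fun y z => by simpa using Fm_lip h0 h2 y z).continuous

/-- The cube of side `N` of the grid. -/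
def cube (m N : ℕ) : Finset (Fin (m + 2) → ℕ) :=
  Fintype.piFinset fun _ => Finset.range (N + 1)

lemma mem_cube {N : ℕ} {v : Fin (m + 2) → ℕ} : v ∈ cube m N ↔ ∀ i, v i ≤ N := by
  simp [cube, Fintype.mem_piFinset, Nat.lt_succ_iff]

/-- The code of a point of a cube. -/
def idx (N : ℕ) (v : Fin (m + 2) → ℕ) : ℕ := Nat.pair N (Encodable.encode v)

lemma idx_inj {N M : ℕ} {v w : Fin (m + 2) → ℕ} (h : idx N v = idx M w) : N = M ∧ v = w := by
  have := Nat.pair_eq_pair.1 h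
  exact ⟨this.1, Encodable.encode_injective this.2⟩

lemma le_idx (N : ℕ) (v : Fin (m + 2) → ℕ) : N ≤ idx N v := Nat.left_le_pair _ _

/-- The exponent of the distance of a cube. -/
def ex (m N : ℕ) : ℕ := ∑ K ∈ Finset.range (N + 1), ((cube m K).sup (idx K) + 1)

lemma ex_mono (m : ℕ) : StrictMono (ex m) := strictMono_nat_of_lt_succ fun N => by
  rw [ex, ex, Finset.sum_range_succ _ (N + 1)]; omega

lemma idx_lt {N : ℕ} {v : Fin (m + 2) → ℕ} (h : v ∈ cube m N) : idx N v + 1 ≤ ex m N := by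
  have h1 : idx N v ≤ (cube m N).sup (idx N) := Finset.le_sup h
  have h2 : (cube m N).sup (idx N) + 1 ≤ ex m N :=
    Finset.single_le_sum (f := fun K => (cube m K).sup (idx K) + 1)
      (fun _ _ => Nat.zero_le _) (Finset.mem_range.2 (Nat.lt_succ_self N))
  omega

/-- The distance of a cube. -/
noncomputable def RR (m N : ℕ) : ℝ := 4 ^ ex m N

lemma RR_pos (m N : ℕ) : 0 < RR m N := by unfold RR; positivity

lemma RR_lt {N M : ℕ} (h : N < M) : 4 * RR m N ≤ RR m M := by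
  have := ex_mono m h
  unfold RR
  calc 4 * (4 : ℝ) ^ ex m N = 4 ^ (ex m N + 1) := by ring
    _ ≤ 4 ^ ex m M := pow_le_pow_right₀ (by norm_num) this

lemma idx_RR {N : ℕ} {v : Fin (m + 2) → ℕ} (h : v ∈ cube m N) :
    4 * (4 : ℝ) ^ idx N v ≤ RR m N := by
  have := idx_lt h
  unfold RR
  calc 4 * (4 : ℝ) ^ idx N v = 4 ^ (idx N v + 1) := by ring
    _ ≤ 4 ^ ex m N := pow_le_pow_right₀ (by norm_num) this

lemma N_le (N : ℕ) (v : Fin (m + 2) → ℕ) : (N : ℝ) + 1 ≤ 4 ^ idx N v := by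
  have h1 : N + 1 ≤ 4 ^ N := Nat.lt_pow_self (by norm_num)
  have h2 : (4 : ℝ) ^ N ≤ 4 ^ idx N v := pow_le_pow_right₀ (by norm_num) (le_idx N v)
  have h3 : ((N + 1 : ℕ) : ℝ) ≤ ((4 ^ N : ℕ) : ℝ) := by exact_mod_cast h1
  push_cast at h3
  linarith

/-- The height of a point. -/
noncomputable def ht (N : ℕ) (v : Fin (m + 2) → ℕ) : ℝ := RR m N - 4 ^ idx N v

lemma ht_bd {N : ℕ} {v : Fin (m + 2) → ℕ} (h : v ∈ cube m N) :
    3 / 4 * RR m N ≤ ht N v ∧ ht N v ≤ RR m N := by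
  have := idx_RR h
  have p : (0 : ℝ) < 4 ^ idx N v := by positivity
  unfold ht; constructor <;> linarith

open Classical in
/-- The scaling factors of the slabs. -/
noncomputable def gam (m k : ℕ) : ℝ :=
  if h : ∃ p : ℕ × (Fin (m + 2) → ℕ), p.2 ∈ cube m p.1 ∧ idx p.1 p.2 = k then
    (RR m h.choose.1 + h.choose.2 0) / ht h.choose.1 h.choose.2 else 1

lemma gam_idx {N : ℕ} {v : Fin (m + 2) → ℕ} (h : v ∈ cube m N) :
    gam m (idx N v) = (RR m N + v 0) / ht N v := by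
  have h' : ∃ p : ℕ × (Fin (m + 2) → ℕ), p.2 ∈ cube m p.1 ∧ idx p.1 p.2 = idx N v :=
    ⟨(N, v), h, rfl⟩
  obtain ⟨e1, e2⟩ := idx_inj h'.choose_spec.2
  rw [gam, dif_pos h', e1, e2]

lemma gam_bd (m k : ℕ) : 1 ≤ gam m k ∧ gam m k ≤ 2 := by
  unfold gam
  split_ifs with h
  · obtain ⟨h1, h2⟩ := h.choose_spec
    set N := h.choose.1
    set v := h.choose.2
    obtain ⟨a1, a2⟩ := ht_bd h1
    have a3 := idx_RR h1
    have a4 := N_le N v
    have a5 : (v 0 : ℝ) ≤ N := by exact_mod_cast mem_cube.1 h1 0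
    have a6 := RR_pos m N
    have a7 : (0 : ℝ) ≤ v 0 := Nat.cast_nonneg _
    have a8 : 0 < ht N v := by linarith
    constructor
    · rw [le_div_iff₀ a8]; linarith
    · rw [div_le_iff₀ a8]; linarith
  · norm_num

noncomputable def cc (m : ℕ) (u : ℝ) : ℝ := gam m (⌊1 / Int.fract u⌋₊ - 2)

lemma cc_bd (m : ℕ) (u : ℝ) : 0 < cc m u ∧ cc m u ≤ 2 ∧ 0 < (cc m u)⁻¹ ∧ (cc m u)⁻¹ ≤ 2 := by
  obtain ⟨h1, h2⟩ := gam_bd m (⌊1 / Int.fract u⌋₊ - 2)
  have h0 : 0 < cc m u := lt_of_lt_of_le one_pos h1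
  exact ⟨h0, h2, inv_pos.2 h0, (inv_le_one_of_one_le₀ h1).trans (by norm_num)⟩

lemma cc_eq (m : ℕ) (a k : ℕ) (u : ℝ) (h1 : (a : ℝ) + 1 / (k + 3) < u)
    (h2 : u < a + 1 / (k + 2)) : cc m u = gam m k := by
  have hk : (0 : ℝ) ≤ k := by positivity
  have p1 : (0 : ℝ) < 1 / (k + 3) := by positivity
  have p2 : (1 : ℝ) / (k + 2) ≤ 1 := by rw [div_le_one (by positivity)]; linarith
  have hf : Int.fract u = u - a := by
    rw [Int.fract_eq_iff]
    exact ⟨by linarith, by linarith, a, by simp⟩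
  have hpos : 0 < u - a := by linarith
  have : ⌊1 / Int.fract u⌋₊ = k + 2 := by
    rw [hf, Nat.floor_eq_iff (by positivity)]
    push_cast
    constructor
    · rw [le_div_iff₀ hpos]
      have : u - a < 1 / (k + 2) := by linarith
      rw [lt_div_iff₀ (by positivity)] at this; linarith
    · rw [div_lt_iff₀ hpos]
      have : 1 / ((k : ℝ) + 3) < u - a := by linarith
      rw [div_lt_iff₀ (by positivity)] at this; linarith
  rw [cc, this]; simp

def Om (m : ℕ) : Set (En (m + 2)) := {x | x 0 < 0 ∨ ∀ᶠ w in 𝓝 (x 1), cc m w = cc m (x 1)}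

lemma Om_loc (h : ℝ → ℝ) {x : En (m + 2)} (hx : x ∈ Om m) :
    ∀ᶠ y in 𝓝 x, y ∈ Om m ∧ Fm (h (cc m (y 1))) y = Fm (h (cc m (x 1))) y := by
  have c0 : Continuous fun y : En (m + 2) => y 0 := by fun_prop
  have c1 : Continuous fun y : En (m + 2) => y 1 := by fun_prop
  rcases hx with hx | hx
  · filter_upwards [c0.continuousAt.eventually (gt_mem_nhds hx)] with y hy
    exact ⟨Or.inl hy, by rw [Fm_neg _ _ hy, Fm_neg _ _ hy]⟩
  · filter_upwards [c1.continuousAt.eventually hx.eventually_nhds, c1.continuousAt.eventually hx]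
      with y hy hy'
    refine ⟨Or.inr ?_, by rw [hy']⟩
    filter_upwards [hy] with w hw
    rw [hw, hy']

lemma Om_open : IsOpen (Om m) :=
  isOpen_iff_mem_nhds.2 fun _ hx => (Om_loc id hx).mono fun _ h => h.1

lemma Om_map {γ : ℝ} (h0 : 0 < γ) {x : En (m + 2)} (hx : x ∈ Om m) : Fm γ x ∈ Om m := by
  rcases hx with hx | hx
  · left; rw [Fm0]; exact (psi_neg h0 _).2 hx
  · right; rw [Fm1]; exact hx

lemma Om_conn : IsConnected (Om m) := by
  let H : Set (En (m + 2)) := {x | x 0 < 0}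
  have hH : Convex ℝ H := by
    intro x hx y hy a b ha hb hab
    show (a • x + b • y) 0 < 0
    have hx' : x 0 < 0 := hx
    have hy' : y 0 < 0 := hy
    simp only [PiLp.add_apply, PiLp.smul_apply, smul_eq_mul]
    rcases eq_or_lt_of_le ha with h | h
    · subst h; simp at hab; simp [hab, hy']
    · nlinarith
  let p : En (m + 2) := WithLp.toLp 2 fun _ => -1
  have hp : p ∈ H := by simp [H, p]
  refine ⟨⟨p, Or.inl hp⟩, isPreconnected_of_forall p fun y hy => ?_⟩
  rcases hy with hy | hy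
  · exact ⟨H, fun x hx => Or.inl hx, hp, hy, hH.isPreconnected⟩
  · let L : Set (En (m + 2)) := {x | x 1 = y 1}
    have hL : Convex ℝ L := by
      intro x hx z hz a b ha hb hab
      show (a • x + b • z) 1 = y 1
      have hx' : x 1 = y 1 := hx
      have hz' : z 1 = y 1 := hz
      simp only [PiLp.add_apply, PiLp.smul_apply, smul_eq_mul, hx', hz']
      rw [← add_mul, hab, one_mul]
    let q : En (m + 2) := WithLp.toLp 2 fun i => if i = 0 then -1 else y 1
    refine ⟨H ∪ L, ?_, Or.inl hp, Or.inr rfl,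
      IsPreconnected.union q (by simp [H, q]) (by simp [L, q]) hH.isPreconnected hL.isPreconnected⟩
    rintro x (hx | hx)
    · exact Or.inl hx
    · right; have hx' : x 1 = y 1 := hx; rw [hx']; exact hy

noncomputable def fq (m : ℕ) : OpenPartialHomeomorph (En (m + 2)) (En (m + 2)) where
  toFun y := Fm (cc m (y 1)) y
  invFun y := Fm (cc m (y 1))⁻¹ y
  source := Om m
  target := Om m
  map_source' _ hx := Om_map (cc_bd m _).1 hx
  map_target' _ hx := Om_map (cc_bd m _).2.2.1 hx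
  left_inv' x _ := by simp only [Fm1]; exact Fm_inv (cc_bd m _).1 x
  right_inv' x _ := by
    simp only [Fm1]
    have := Fm_inv (cc_bd m (x 1)).2.2.1 x
    rwa [inv_inv] at this
  open_source := Om_open
  open_target := Om_open
  continuousOn_toFun x hx := by
    refine ContinuousAt.continuousWithinAt ?_
    refine (Fm_cont (cc_bd m (x 1)).1 (cc_bd m (x 1)).2.1).continuousAt.congr ?_
    exact (Om_loc id hx).mono fun y h => h.2.symm
  continuousOn_invFun x hx := by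
    refine ContinuousAt.continuousWithinAt ?_
    refine (Fm_cont (cc_bd m (x 1)).2.2.1 (cc_bd m (x 1)).2.2.2).continuousAt.congr ?_
    exact (Om_loc (fun t => t⁻¹) hx).mono fun y h => h.2.symm

lemma fq_qc : IsQC (fq m) := by
  refine ⟨4, fun x hx => ?_⟩
  obtain ⟨δ, hδ, h⟩ := Metric.eventually_nhds_iff.1 (Om_loc id hx)
  filter_upwards [Ioo_mem_nhdsGT hδ] with r hr y hy z hz
  rw [Metric.mem_sphere] at hy hz
  have e1 : fq m y = Fm (cc m (x 1)) y := (h (by rw [hy]; exact hr.2)).2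
  have e2 : fq m z = Fm (cc m (x 1)) z := (h (by rw [hz]; exact hr.2)).2
  have e3 : fq m x = Fm (cc m (x 1)) x := rfl
  rw [e1, e2, e3]
  obtain ⟨a1, a2, a3, a4⟩ := cc_bd m (x 1)
  have b1 := Fm_lip a1 a2 y x
  have b2 := Fm_lip a3 a4 (Fm (cc m (x 1)) z) (Fm (cc m (x 1)) x)
  rw [Fm_inv a1, Fm_inv a1] at b2
  linarith

lemma nag_sub {n : ℕ} (S : Set (En n)) : NagLE S n :=
  nagLE_of n (fun x j => (x : En n) j) (fun x y j => coord_le _ _ j) ((n + 1) * (n + 2))
    (by positivity) (fun _ _ => 0) (fun _ _ _ _ _ => rfl) fun s hs x y _ h => by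
      rw [Subtype.dist_eq, mul_assoc]
      exact dist_le_card _ _ _ (by positivity) h

/-- The points of the set. -/
noncomputable def ept (N : ℕ) (v : Fin (m + 2) → ℕ) : En (m + 2) :=
  WithLp.toLp 2 fun i => if i = 0 then ht N v else v i + 2 / (2 * idx N v + 5)

lemma ept0 (N : ℕ) (v : Fin (m + 2) → ℕ) : ept N v 0 = ht N v := by simp [ept]

lemma ept_ne (N : ℕ) (v : Fin (m + 2) → ℕ) {i : Fin (m + 2)} (hi : i ≠ 0) :
    ept N v i = v i + 2 / (2 * idx N v + 5) := by simp [ept, hi]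

lemma ept_near (N : ℕ) (v : Fin (m + 2) → ℕ) :
    ∀ᶠ w in 𝓝 (ept N v 1), cc m w = gam m (idx N v) := by
  have e : ept N v 1 = v 1 + 2 / (2 * idx N v + 5) := ept_ne N v (by simp)
  have hk : (0 : ℝ) ≤ idx N v := by positivity
  have h1 : (v 1 : ℝ) + 1 / (idx N v + 3) < ept N v 1 := by
    rw [e, add_lt_add_iff_left, div_lt_div_iff₀ (by positivity) (by positivity)]; linarith
  have h2 : ept N v 1 < (v 1 : ℝ) + 1 / (idx N v + 2) := by
    rw [e, add_lt_add_iff_left, div_lt_div_iff₀ (by positivity) (by positivity)]; linarith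
  filter_upwards [Ioo_mem_nhds h1 h2] with w hw
  exact cc_eq m _ _ _ hw.1 hw.2

lemma ept_mem (N : ℕ) (v : Fin (m + 2) → ℕ) : ept N v ∈ Om m := by
  right
  filter_upwards [ept_near N v] with w hw
  rw [hw, (ept_near N v).self_of_nhds]

lemma off_bd (k : ℕ) : (0 : ℝ) < 2 / (2 * k + 5) ∧ (2 : ℝ) / (2 * k + 5) ≤ 1 := by
  have hk : (0 : ℝ) ≤ k := by positivity
  refine ⟨by positivity, ?_⟩
  rw [div_le_one (by positivity)]
  linarith

lemma fq_ept {N : ℕ} {v : Fin (m + 2) → ℕ} (hv : v ∈ cube m N) (i : Fin (m + 2)) :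
    |fq m (ept N v) i - ((if i = 0 then RR m N else 0) + v i)| ≤ 1 := by
  show |Fm (cc m (ept N v 1)) (ept N v) i - ((if i = 0 then RR m N else 0) + v i)| ≤ 1
  have h0 : 0 < ht N v := by have := (ht_bd hv).1; have := RR_pos m N; linarith
  by_cases hi : i = 0
  · subst hi
    rw [Fm0, (ept_near N v).self_of_nhds, ept0, psi, if_neg (not_lt.2 h0.le), gam_idx hv,
      div_mul_cancel₀ _ h0.ne']
    simp
  · obtain ⟨a, b⟩ := off_bd (idx N v)
    rw [Fm_ne _ _ hi, ept_ne _ _ hi, if_neg hi, zero_add, add_sub_cancel_left, abs_of_pos a]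
    exact b

/-- The set. -/
def EE (m : ℕ) : Set (En (m + 2)) := {x | ∃ N, ∃ v ∈ cube m N, x = ept N v}

lemma coord_bd {N : ℕ} {v : Fin (m + 2) → ℕ} (hv : v ∈ cube m N) {i : Fin (m + 2)}
    (hi : i ≠ 0) : 0 ≤ ept N v i ∧ ept N v i ≤ N + 1 := by
  obtain ⟨a, b⟩ := off_bd (idx N v)
  have a5 : (v i : ℝ) ≤ N := by exact_mod_cast mem_cube.1 hv i
  have a7 : (0 : ℝ) ≤ v i := Nat.cast_nonneg _
  rw [ept_ne _ _ hi]
  constructor <;> linarith

lemma pow_gap {a b : ℕ} (h : a < b) : (4 : ℝ) ^ b ≤ 2 * (4 ^ b - 4 ^ a) := by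
  have : (4 : ℝ) ^ (a + 1) ≤ 4 ^ b := pow_le_pow_right₀ (by norm_num) h
  have p : (0 : ℝ) < 4 ^ a := by positivity
  rw [pow_succ] at this; linarith

lemma sep_block {N M : ℕ} {v w : Fin (m + 2) → ℕ} (hv : v ∈ cube m N) (hw : w ∈ cube m M)
    (h : N < M) : RR m M ≤ 2 * dist (ept N v) (ept M w) := by
  have h1 := coord_le (ept N v) (ept M w) 0
  rw [ept0, ept0] at h1
  have h2 := (ht_bd hv).2
  have h3 := (ht_bd hw).1
  have h4 := RR_lt (m := m) h
  have h5 := neg_abs_le (ht N v - ht M w)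
  linarith

lemma sep_point {N : ℕ} {v w : Fin (m + 2) → ℕ} (h : idx N v < idx N w) :
    (4 : ℝ) ^ idx N w ≤ 2 * dist (ept N v) (ept N w) := by
  have h1 := coord_le (ept N v) (ept N w) 0
  rw [ept0, ept0] at h1
  have h2 := pow_gap h
  have h3 : ht N v - ht N w = 4 ^ idx N w - 4 ^ idx N v := by unfold ht; ring
  rw [h3] at h1
  linarith [le_abs_self ((4 : ℝ) ^ idx N w - 4 ^ idx N v)]

lemma nag_E : NagLE (EE m) 0 := by
  classical
  have hex : ∀ x : EE m, ∃ p : ℕ × (Fin (m + 2) → ℕ), p.2 ∈ cube m p.1 ∧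
      (x : En (m + 2)) = ept p.1 p.2 := by
    rintro ⟨_, N, v, hv, rfl⟩
    exact ⟨(N, v), hv, rfl⟩
  choose p hp1 hp2 using hex
  refine nagLE_of 0 (fun _ j => j.elim0) (fun x y j => j.elim0)
    (((((m + 2 : ℕ) : ℝ)) + 1) * 2) (by positivity)
    (fun s x => if RR m (p x).1 ≤ 2 * s then 0 else
      if (4 : ℝ) ^ idx (p x).1 (p x).2 ≤ 2 * s then 2 * (p x).1 + 1 else
        2 * idx (p x).1 (p x).2 + 2) ?_ ?_
  · intro s hs x y h
    rw [Subtype.dist_eq, hp2 x, hp2 y] at h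
    rcases lt_trichotomy (p x).1 (p y).1 with h1 | h1 | h1
    · have h2 := sep_block (hp1 x) (hp1 y) h1
      have h3 := RR_lt (m := m) h1
      have h4 := RR_pos m (p x).1
      rw [if_pos (by linarith), if_pos (by linarith)]
    · have key : ∀ (N : ℕ) (v w : Fin (m + 2) → ℕ), dist (ept N v) (ept N w) ≤ s →
          ((4 : ℝ) ^ idx N v ≤ 2 * s ∧ (4 : ℝ) ^ idx N w ≤ 2 * s) ∨ idx N v = idx N w := by
        intro N v w h
        rcases lt_trichotomy (idx N v) (idx N w) with h2 | h2 | h2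
        · have h3 := sep_point h2
          have h4 : (4 : ℝ) ^ idx N v ≤ 4 ^ idx N w := pow_le_pow_right₀ (by norm_num) h2.le
          left; constructor <;> linarith
        · exact Or.inr h2
        · have h3 := sep_point h2
          have h4 : (4 : ℝ) ^ idx N w ≤ 4 ^ idx N v := pow_le_pow_right₀ (by norm_num) h2.le
          rw [dist_comm] at h3
          left; constructor <;> linarith
      rw [← h1] at h ⊢
      rcases key _ _ _ h with ⟨h2, h3⟩ | h2
      · rw [if_pos h2, if_pos h3]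
      · rw [h2]
    · have h2 := sep_block (hp1 y) (hp1 x) h1
      rw [dist_comm] at h2
      have h3 := RR_lt (m := m) h1
      have h4 := RR_pos m (p y).1
      rw [if_pos (by linarith), if_pos (by linarith)]
  · intro s hs x y h1 _
    rw [Subtype.dist_eq, mul_assoc]
    -- all coordinates are small
    have hx := hp2 x
    have hy := hp2 y
    have bx : ∀ i : Fin (m + 2), i ≠ 0 → 0 ≤ (x : En (m + 2)) i ∧
        (x : En (m + 2)) i ≤ 4 ^ idx (p x).1 (p x).2 := fun i hi => by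
      rw [hx]
      have := coord_bd (hp1 x) hi
      have := N_le (p x).1 (p x).2
      constructor <;> linarith [this]
    have by' : ∀ i : Fin (m + 2), i ≠ 0 → 0 ≤ (y : En (m + 2)) i ∧
        (y : En (m + 2)) i ≤ 4 ^ idx (p y).1 (p y).2 := fun i hi => by
      rw [hy]
      have := coord_bd (hp1 y) hi
      have := N_le (p y).1 (p y).2
      constructor <;> linarith [this]
    have x0 : (x : En (m + 2)) 0 = RR m (p x).1 - 4 ^ idx (p x).1 (p x).2 := by
      rw [hx, ept0]; rfl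
    have y0 : (y : En (m + 2)) 0 = RR m (p y).1 - 4 ^ idx (p y).1 (p y).2 := by
      rw [hy, ept0]; rfl
    have rx := idx_RR (hp1 x)
    have ry := idx_RR (hp1 y)
    have px : (0 : ℝ) < 4 ^ idx (p x).1 (p x).2 := by positivity
    have py : (0 : ℝ) < 4 ^ idx (p y).1 (p y).2 := by positivity
    have heq : idx (p x).1 (p x).2 = idx (p y).1 (p y).2 →
        dist (x : En (m + 2)) y ≤ (((m + 2 : ℕ) : ℝ) + 1) * (2 * s) := fun e => by
      obtain ⟨e1, e2⟩ := idx_inj e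
      have : (x : En (m + 2)) = y := by rw [hx, hy, e1, e2]
      rw [this, dist_self]; positivity
    by_cases a : RR m (p x).1 ≤ 2 * s
    · by_cases a' : RR m (p y).1 ≤ 2 * s
      · refine dist_le_card _ _ _ (by positivity) fun i => ?_
        by_cases hi : i = 0
        · subst hi
          rw [x0, y0, abs_le]; constructor <;> linarith
        · have := bx i hi; have := by' i hi
          rw [abs_le]; constructor <;> linarith
      · rw [if_pos a, if_neg a'] at h1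
        split_ifs at h1 <;> omega
    · by_cases a' : RR m (p y).1 ≤ 2 * s
      · rw [if_neg a, if_pos a'] at h1
        split_ifs at h1 <;> omega
      · rw [if_neg a, if_neg a'] at h1
        by_cases b : (4 : ℝ) ^ idx (p x).1 (p x).2 ≤ 2 * s
        · by_cases b' : (4 : ℝ) ^ idx (p y).1 (p y).2 ≤ 2 * s
          · rw [if_pos b, if_pos b'] at h1
            have e1 : (p x).1 = (p y).1 := by omega
            refine dist_le_card _ _ _ (by positivity) fun i => ?_
            by_cases hi : i = 0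
            · subst hi
              rw [← e1] at y0 b' py
              rw [x0, y0, abs_le]
              constructor <;> linarith
            · have := bx i hi; have := by' i hi
              rw [abs_le]; constructor <;> linarith
          · rw [if_pos b, if_neg b'] at h1
            omega
        · by_cases b' : (4 : ℝ) ^ idx (p y).1 (p y).2 ≤ 2 * s
          · rw [if_neg b, if_pos b'] at h1
            omega
          · rw [if_neg b, if_neg b'] at h1
            exact heq (by omega)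

theorem main (m : ℕ) : ∃ f : OpenPartialHomeomorph (En (m + 2)) (En (m + 2)),
    IsConnected f.source ∧ IsConnected f.target ∧ IsQC f ∧
    (∀ x : En (m + 2), x 0 < 0 → x ∈ f.source ∧ f x = x) ∧
    (∀ x ∈ f.source, ∀ᶠ y in 𝓝 x, dist (f y) (f x) ≤ 2 * dist y x ∧
      dist y x ≤ 2 * dist (f y) (f x)) ∧
    ∃ E : Set (En (m + 2)), E ⊆ f.source ∧ dimN E = 0 ∧
      dimN (f '' E) = ((m + 2 : ℕ) : ℕ∞) := by
  refine ⟨fq m, Om_conn, Om_conn, fq_qc, fun x hx => ⟨Or.inl hx, Fm_neg _ _ hx⟩,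
    fun x hx => ?_, EE m, ?_, ?_, ?_⟩
  · filter_upwards [Om_loc id hx] with y hy
    have e1 : fq m y = Fm (cc m (x 1)) y := hy.2
    have e3 : fq m x = Fm (cc m (x 1)) x := rfl
    rw [e1, e3]
    obtain ⟨a1, a2, a3, a4⟩ := cc_bd m (x 1)
    have b2 := Fm_lip a3 a4 (Fm (cc m (x 1)) y) (Fm (cc m (x 1)) x)
    rw [Fm_inv a1, Fm_inv a1] at b2
    exact ⟨Fm_lip a1 a2 y x, b2⟩
  · rintro _ ⟨N, v, hv, rfl⟩; exact ept_mem N v
  · exact le_antisymm (iInf₂_le 0 nag_E) bot_le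
  · refine le_antisymm (iInf₂_le (m + 2) (nag_sub _)) (le_iInf₂ fun k hk => ?_)
    by_contra hlt
    refine not_nagLE (fq m '' EE m) (fun N => ?_) k (by exact_mod_cast not_le.1 hlt) hk
    have h0 : (0 : Fin (m + 2) → ℕ) ∈ cube m N := mem_cube.2 fun i => Nat.zero_le _
    classical
    refine ⟨fun i => if i = 0 then RR m N else 0, fun v => if hv : v ∈ cube m N then
      ⟨fq m (ept N v), ept N v, ⟨N, v, hv, rfl⟩, rfl⟩ else
      ⟨fq m (ept N 0), ept N 0, ⟨N, 0, h0, rfl⟩, rfl⟩, fun v hv i => ?_⟩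
    have hv' : v ∈ cube m N := mem_cube.2 hv
    simp only [dif_pos hv']
    exact fq_ept hv' i

end Pool.Agent.H34.Nag
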